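import Mathlib
import Pool.Agent.Lib.MP_fe2d2a_anR.Odd
import Pool.Agent.Lib.MP_fe2d2a_anEC.Blocks

/-!
Derivative of the coefficients of the rotated polynomial, and the block lemma for polynomials with
`P x ≤ 11 * P (-x)` for `x > 0`.
-/

set_option autoImplicit false

open Finset Polynomial Filter Set

namespace Pool.Agent.MP_fe2d2a_anNE

open Pool.Agent.MP_fe2d2a_anEC Pool.Agent.MP_fe2d2a_anR

variable {ι : Type*} [DecidableEq ι]

omit [DecidableEq ι] in
lemma RP_eq (a : ι → ℝ) (A : Finset ι) (t : ℝ) :
    RP a A t = QP (fun k => Real.cos (t + a k)) A := by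
  unfold RP QP
  rfl

/-- Coefficients of a product with one factor. -/
lemma mul_factor_coeff (c : ℝ) (Q : ℝ[X]) (j : ℕ) :
    ((X ^ 2 - C (2 * c) * X + 1) * Q).coeff j =
      (X ^ 2 * Q).coeff j + Q.coeff j - 2 * c * (X * Q).coeff j := by
  have e : (X ^ 2 - C (2 * c) * X + 1) * Q = X ^ 2 * Q + Q - C (2 * c) * (X * Q) := by ring
  rw [e, coeff_sub, coeff_add, coeff_C_mul]

/-- If all coefficients are differentiable, so are those of `X * Q`, `X ^ 2 * Q`. -/
lemma deriv_X_mul {Q : ℝ → ℝ[X]} {D : ℝ[X]} {t : ℝ}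
    (h : ∀ j, HasDerivAt (fun t => (Q t).coeff j) (D.coeff j) t) (j : ℕ) :
    HasDerivAt (fun t => (X * Q t).coeff j) ((X * D).coeff j) t := by
  rcases j with _ | j
  · simp only [mul_coeff_zero, coeff_X_zero, zero_mul]
    exact hasDerivAt_const t 0
  · simp only [coeff_X_mul]
    exact h j

lemma deriv_X_sq_mul {Q : ℝ → ℝ[X]} {D : ℝ[X]} {t : ℝ}
    (h : ∀ j, HasDerivAt (fun t => (Q t).coeff j) (D.coeff j) t) (j : ℕ) :
    HasDerivAt (fun t => (X ^ 2 * Q t).coeff j) ((X ^ 2 * D).coeff j) t := by
  have h1 := deriv_X_mul (Q := fun t => X * Q t) (D := X * D) (t := t) (deriv_X_mul h) j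
  have e1 : (fun t => (X ^ 2 * Q t).coeff j) = fun t => (X * (X * Q t)).coeff j := by
    funext s
    congr 1
    ring
  have e2 : X ^ 2 * D = X * (X * D) := by ring
  rw [e1, e2]
  exact h1

/-- The polynomial of derivatives. -/
noncomputable def DP (a : ι → ℝ) (A : Finset ι) (t : ℝ) : ℝ[X] :=
  ∑ k ∈ A, C (2 * Real.sin (t + a k)) * (X * QP (fun k => Real.cos (t + a k)) (A.erase k))

lemma coeff_deriv' (a : ι → ℝ) (A : Finset ι) (t : ℝ) : ∀ j : ℕ,
    HasDerivAt (fun t : ℝ => (QP (fun k => Real.cos (t + a k)) A).coeff j)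
      ((DP a A t).coeff j) t := by
  induction A using Finset.induction_on with
  | empty =>
    intro j
    simp only [QP, DP, Finset.prod_empty, Finset.sum_empty, coeff_zero]
    exact hasDerivAt_const t _
  | insert k A hk ih =>
    intro j
    have hins : ∀ s : ℝ, QP (fun k => Real.cos (s + a k)) (insert k A) =
        (X ^ 2 - C (2 * Real.cos (s + a k)) * X + 1) * QP (fun k => Real.cos (s + a k)) A := by
      intro s
      unfold QP
      rw [Finset.prod_insert hk]
    have e1 : (fun t : ℝ => (QP (fun k => Real.cos (t + a k)) (insert k A)).coeff j) =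
        fun t : ℝ => (X ^ 2 * QP (fun k => Real.cos (t + a k)) A).coeff j +
          (QP (fun k => Real.cos (t + a k)) A).coeff j -
          2 * Real.cos (t + a k) * (X * QP (fun k => Real.cos (t + a k)) A).coeff j := by
      funext s
      rw [hins s, mul_factor_coeff]
    rw [e1]
    have hcos : HasDerivAt (fun t : ℝ => 2 * Real.cos (t + a k))
        (2 * (-Real.sin (t + a k) * 1)) t :=
      (((hasDerivAt_id t).add_const (a k)).cos).const_mul 2
    have d := ((deriv_X_sq_mul ih j).add (ih j)).sub (hcos.mul (deriv_X_mul ih j))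
    refine HasDerivAt.congr_deriv d ?_
    have hD : DP a (insert k A) t = C (2 * Real.sin (t + a k)) *
        (X * QP (fun k => Real.cos (t + a k)) A) +
        (X ^ 2 - C (2 * Real.cos (t + a k)) * X + 1) * DP a A t := by
      unfold DP
      rw [Finset.sum_insert hk, Finset.erase_insert hk, Finset.mul_sum]
      congr 1
      apply Finset.sum_congr rfl
      intro i hi
      have hik : i ≠ k := fun h => hk (h ▸ hi)
      have e : (insert k A).erase i = insert k (A.erase i) :=
        Finset.erase_insert_of_ne (Ne.symm hik)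
      rw [e]
      have hk' : k ∉ A.erase i := fun h => hk (Finset.mem_of_mem_erase h)
      unfold QP
      rw [Finset.prod_insert hk']
      ring
    rw [hD, coeff_add, coeff_C_mul, mul_factor_coeff]
    ring

lemma coeff_deriv (a : ι → ℝ) (A : Finset ι) (j : ℕ) (t : ℝ) :
    HasDerivAt (fun t : ℝ => (QP (fun k => Real.cos (t + a k)) A).coeff j)
      (∑ k ∈ A, 2 * Real.sin (t + a k) *
        (X * QP (fun k => Real.cos (t + a k)) (A.erase k)).coeff j) t := by
  have h := coeff_deriv' a A t j
  unfold DP at h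
  rw [finsetSum_coeff] at h
  simp only [coeff_C_mul] at h
  exact h

lemma coeff_continuous (a : ι → ℝ) (A : Finset ι) (j : ℕ) :
    Continuous (fun t : ℝ => (QP (fun k => Real.cos (t + a k)) A).coeff j) :=
  continuous_iff_continuousAt.2 (fun t => (coeff_deriv a A j t).continuousAt)

lemma coeff_deriv_continuous (a : ι → ℝ) (A : Finset ι) (j : ℕ) :
    Continuous (fun t : ℝ => ∑ k ∈ A, 2 * Real.sin (t + a k) *
        (X * QP (fun k => Real.cos (t + a k)) (A.erase k)).coeff j) := by
  apply continuous_finsetSum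
  intro k _
  apply Continuous.mul
  · exact continuous_const.mul (Real.continuous_sin.comp (continuous_id.add continuous_const))
  · rcases j with _ | j
    · simp only [mul_coeff_zero, coeff_X_zero, zero_mul]
      exact continuous_const
    · simp only [coeff_X_mul]
      exact coeff_continuous a (A.erase k) j

/-- A positive derivative at `0` gives monotonicity on a small interval. -/
lemma mono_of_pos {f f' : ℝ → ℝ} (hf : ∀ t, HasDerivAt f (f' t) t) (hc : Continuous f')
    (h0 : 0 < f' 0) : ∃ ε > (0 : ℝ), MonotoneOn f (Icc 0 ε) := by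
  have h1 : ∀ᶠ t in nhds (0 : ℝ), 0 < f' t := hc.continuousAt.eventually (lt_mem_nhds h0)
  obtain ⟨δ, hδ, h2⟩ := Metric.eventually_nhds_iff.1 h1
  refine ⟨δ / 2, by positivity, ?_⟩
  apply monotoneOn_of_deriv_nonneg (convex_Icc 0 (δ / 2))
  · exact fun t _ => (hf t).continuousAt.continuousWithinAt
  · exact fun t _ => (hf t).differentiableAt.differentiableWithinAt
  · intro t ht
    rw [interior_Icc] at ht
    rw [(hf t).deriv]
    apply (h2 _).le
    rw [Real.dist_eq, sub_zero, abs_of_pos ht.1]
    linarith [ht.2]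

/-- If all derivatives of index between `1` and `2 N - 1` are positive at `0`, all coefficients are
monotone on a common interval. -/
theorem block_of_pos (a : ι → ℝ) (A : Finset ι)
    (h : ∀ i, i + 1 < 2 * A.card →
      0 < ∑ k ∈ A, 2 * Real.sin (a k) * (QP (fun k => Real.cos (a k)) (A.erase k)).coeff i) :
    ∃ ε > (0 : ℝ), ∀ j, MonotoneOn (fun t : ℝ => (RP a A t).coeff j) (Icc 0 ε) := by
  have hc : ∀ j : ℕ, ∃ ε > (0 : ℝ), MonotoneOn (fun t : ℝ => (RP a A t).coeff j) (Icc 0 ε) := by
    intro j
    have e : (fun t : ℝ => (RP a A t).coeff j) =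
        fun t : ℝ => (QP (fun k => Real.cos (t + a k)) A).coeff j := by
      funext t
      rw [RP_eq]
    rw [e]
    rcases j with _ | i
    · refine ⟨1, one_pos, ?_⟩
      intro x _ y _ _
      simp only [QP_coeff_zero, le_refl]
    · rcases lt_trichotomy (i + 1) (2 * A.card) with h1 | h1 | h1
      · apply mono_of_pos (fun t => coeff_deriv a A (i + 1) t) (coeff_deriv_continuous a A (i + 1))
        simp only [zero_add, coeff_X_mul]
        exact h i h1
      · refine ⟨1, one_pos, ?_⟩
        intro x _ y _ _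
        have h2 : ∀ t : ℝ, (QP (fun k => Real.cos (t + a k)) A).coeff (i + 1) = 1 := by
          intro t
          rw [h1, ← QP_natDegree (fun k => Real.cos (t + a k)) A]
          exact QP_monic _ _
        simp only [h2, le_refl]
      · refine ⟨1, one_pos, ?_⟩
        intro x _ y _ _
        have h2 : ∀ t : ℝ, (QP (fun k => Real.cos (t + a k)) A).coeff (i + 1) = 0 := by
          intro t
          apply coeff_eq_zero_of_natDegree_lt
          rw [QP_natDegree]
          exact h1
        simp only [h2, le_refl]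
  have h1 : ∀ M : ℕ, ∃ ε > (0 : ℝ), ∀ j < M,
      MonotoneOn (fun t : ℝ => (RP a A t).coeff j) (Icc 0 ε) := by
    intro M
    induction M with
    | zero => exact ⟨1, one_pos, fun j hj => absurd hj (by omega)⟩
    | succ M ih =>
      obtain ⟨ε1, h1, hm1⟩ := ih
      obtain ⟨ε2, h2, hm2⟩ := hc M
      refine ⟨min ε1 ε2, by positivity, ?_⟩
      intro j hj
      by_cases hjM : j < M
      · exact (hm1 j hjM).mono (Icc_subset_Icc le_rfl (min_le_left _ _))
      · have : j = M := by omega
        rw [this]
        exact hm2.mono (Icc_subset_Icc le_rfl (min_le_right _ _))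
  obtain ⟨ε, hε, hm⟩ := h1 (2 * A.card + 1)
  refine ⟨ε, hε, fun j => ?_⟩
  by_cases hj : j < 2 * A.card + 1
  · exact hm j hj
  · intro x _ y _ _
    have hz : ∀ t, (RP a A t).coeff j = 0 := by
      intro t
      apply coeff_eq_zero_of_natDegree_lt
      rw [RP_natDegree]
      omega
    simp only [hz, le_refl]

end Pool.Agent.MP_fe2d2a_anNE
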