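import Mathlib
import Pool.Agent.Lib.MP_fe2d2a_anNE.Block
import Pool.Agent.Lib.MP_fe2d2a_anR.Final

/-!
The block lemma for polynomials with `P x ≤ 11 * P (-x)` for `x > 0`.
-/

set_option autoImplicit false

open Finset Polynomial Filter Set

namespace Pool.Agent.MP_fe2d2a_anNE

open Pool.Agent.MP_fe2d2a_anEC Pool.Agent.MP_fe2d2a_anR

variable {ι : Type*} [DecidableEq ι]

theorem near_block (a : ι → ℝ) (A : Finset ι) (ha : ∀ k ∈ A, 0 < a k ∧ a k < Real.pi)
    (hpos : ∀ j, 0 ≤ (RP a A 0).coeff j)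
    (hnear : ∀ x : ℝ, 0 < x → (RP a A 0).eval x ≤ 11 * (RP a A 0).eval (-x)) :
    ∃ ε > (0 : ℝ), ∀ j, MonotoneOn (fun t : ℝ => (RP a A t).coeff j) (Icc 0 ε) := by
  by_cases hodd : ∀ j, Odd j → (RP a A 0).coeff j = 0
  · exact even_block a A ha hpos hodd
  · push Not at hodd
    obtain ⟨j0, hj0, hj1⟩ := hodd
    have e0 : RP a A 0 = QP (fun k => Real.cos (a k)) A := by
      rw [RP_eq]
      simp only [zero_add]
    rw [e0] at hj1
    rw [e0] at hnear
    have hpos' : ∀ i, 0 ≤ (QP (fun k => Real.cos (a k)) A).coeff i := by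
      intro i
      rw [← e0]
      exact hpos i
    have hv : ∀ k ∈ A, 0 < Real.sin (a k) := fun k hk =>
      Real.sin_pos_of_pos_of_lt_pi (ha k hk).1 (ha k hk).2
    have huv : ∀ k ∈ A, Real.cos (a k) ^ 2 + Real.sin (a k) ^ 2 = 1 := fun k _ =>
      Real.cos_sq_add_sin_sq (a k)
    apply block_of_pos a A
    intro i hi
    rcases Nat.even_or_odd i with h | h
    · exact odd_pos (u := fun k => Real.cos (a k)) (v := fun k => Real.sin (a k)) hv huv hpos'
        hnear h hi
    · exact even_pos' (u := fun k => Real.cos (a k)) (v := fun k => Real.sin (a k)) hv huv hpos'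
        ⟨j0, hj0, lt_of_le_of_ne (hpos' j0) (Ne.symm hj1)⟩ hnear h hi

end Pool.Agent.MP_fe2d2a_anNE
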